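import Pool.Agent.TH168.Mil.Asm5

/-!
A counterexample to Milnor's conjecture on complete umbilic-free surfaces: a properly embedded complete
smooth surface in Euclidean 3-space, diffeomorphic to the plane, whose two principal curvatures are
everywhere positive, different from each other, and satisfy `k₁² + k₂² ≥ 1/4`.

The surface is `X P = (∇G P, ⟨P, ∇G P⟩ - G P)` for a smooth strictly convex function `G` on the plane.
-/

set_option autoImplicit false

namespace Pool.Agent.Results.MP_7d7bd6_gt.MilnorFalse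

open Filter Topology
open scoped ContDiff RealInnerProductSpace

/-- Euclidean three-space. -/
abbrev E3 : Type := EuclideanSpace ℝ (Fin 3)

/-- The length of `X ∘ γ` over `[a, b]`, for a `C¹` path `γ` in the plane; that is, the length of `γ` in
the metric induced by `X`. -/
noncomputable def pathLen (X : ℝ × ℝ → E3) (γ : ℝ → ℝ × ℝ) (a b : ℝ) : ℝ :=
  ∫ t in a..b, ‖fderiv ℝ X (γ t) (deriv γ t)‖

/-- The set of lengths, in the metric induced by `X`, of the `C¹` paths from `p` to `q`. -/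
def lens (X : ℝ × ℝ → E3) (p q : ℝ × ℝ) : Set ℝ :=
  {ℓ | ∃ γ : ℝ → ℝ × ℝ, ContDiff ℝ 1 γ ∧ γ 0 = p ∧ γ 1 = q ∧ ℓ = pathLen X γ 0 1}

/-- The Riemannian distance of the metric induced by `X`. -/
noncomputable def idist (X : ℝ × ℝ → E3) (p q : ℝ × ℝ) : ℝ := sInf (lens X p q)

/-- The metric induced by `X` is complete: every sequence which is Cauchy for the Riemannian distance
converges for it. -/
def IsCompleteSurf (X : ℝ × ℝ → E3) : Prop :=
  ∀ u : ℕ → ℝ × ℝ,
    (∀ ε : ℝ, 0 < ε → ∃ N : ℕ, ∀ m n : ℕ, N ≤ m → N ≤ n → idist X (u m) (u n) < ε) →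
    ∃ p : ℝ × ℝ, Tendsto (fun n => idist X (u n) p) atTop (𝓝 0)

/-- Every divergent `C¹` path has infinite length in the metric induced by `X`. -/
def DivPathsInf (X : ℝ × ℝ → E3) : Prop :=
  ∀ γ : ℝ → ℝ × ℝ, ContDiff ℝ 1 γ → Tendsto γ atTop (cocompact (ℝ × ℝ)) →
    Tendsto (fun T => pathLen X γ 0 T) atTop atTop

/-- `k` is a principal curvature at `P` of the surface `X` with unit normal `ν`: the shape operator
`dX v ↦ -dν v` has eigenvalue `k`. -/
def IsPC (X ν : ℝ × ℝ → E3) (P : ℝ × ℝ) (k : ℝ) : Prop :=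
  ∃ v : ℝ × ℝ, v ≠ 0 ∧ fderiv ℝ ν P v = -k • fderiv ℝ X P v

theorem result : ∃ X ν : ℝ × ℝ → E3,
    -- `X` is a smooth immersion (indeed an injective one) of the plane
    ContDiff ℝ ∞ X ∧ ContDiff ℝ ∞ ν ∧
    Function.Injective X ∧ (∀ P, Function.Injective (fderiv ℝ X P)) ∧
    -- `ν` is its smooth unit normal field
    (∀ P, ‖ν P‖ = 1) ∧ (∀ P v, ⟪ν P, fderiv ℝ X P v⟫ = 0) ∧
    -- `X` is proper and its induced metric is complete
    Tendsto X (cocompact (ℝ × ℝ)) (cocompact E3) ∧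
    IsCompleteSurf X ∧ DivPathsInf X ∧
    -- at every point there are exactly two principal curvatures `0 < k₁ < k₂`
    ∀ P, ∃ k₁ k₂ : ℝ, (∀ k : ℝ, IsPC X ν P k ↔ k = k₁ ∨ k = k₂) ∧
      0 < k₁ ∧ k₁ < k₂ ∧ 1 / 4 ≤ k₁ ^ 2 + k₂ ^ 2 :=
  Pool.Agent.TH168.Mil.main

end Pool.Agent.Results.MP_7d7bd6_gt.MilnorFalse
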